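import Pool.Agent.MP_8be872_ag.H63.SpecC

/-! Sorting permutations and specializations of the weights. -/

namespace Pool.Agent.MP_8be872_ag.H55

open Finset H38 H56 H63

variable {Q : Quiv} {w v D : Fin Q.n → ℕ}

lemma pair_idx {i j : Fin Q.n} {a b : ℕ} :
    (3 * Nat.pair j b + 4 = 3 * Nat.pair i a + 4) ↔ j = i ∧ b = a := by
  constructor
  · intro h
    have h' : Nat.pair j b = Nat.pair i a := by omega
    obtain ⟨h1, h2⟩ := Nat.pair_eq_pair.mp h'
    exact ⟨Fin.ext h1, h2⟩
  · rintro ⟨rfl, rfl⟩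
    rfl

lemma bas_ext {u : Fin Q.n → ℕ} {a b : Bas Q u} : a = b ↔ a.1 = b.1 ∧ (a.2 : ℕ) = b.2 := by
  constructor
  · rintro rfl
    exact ⟨rfl, rfl⟩
  · obtain ⟨i, a⟩ := a
    obtain ⟨j, b⟩ := b
    rintro ⟨h1, h2⟩
    dsimp only at h1 h2
    subst h1
    rw [Fin.ext h2]

lemma xi_qq (p : Nb Q w v D) : xi p qq = 0 := by
  rcases p with a | a | a
  · simp [xi, H38.qq, co_gen]
  · simp [xi, H38.qq, co_gen]
  · simp [xi]

open Classical in
lemma xiT_bw (τ : Bas Q D) (q : Nb Q w v D) :
    xi (.inl τ : Nb Q w v D) (bw q) = if q = .inl τ then 1 else 0 := by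
  rcases q with a | a | a
  · simp only [xi, bw, Sum.elim_inl, xV, co_gen, pair_idx, Sum.inl.injEq, bas_ext]
    congr 1
    apply propext
    constructor
    · rintro ⟨h1, h2⟩
      have := congrArg v h1
      exact ⟨h1, by omega⟩
    · rintro ⟨h1, h2⟩
      have := congrArg v h1
      exact ⟨h1, by omega⟩
  · simp only [xi, bw, Sum.elim_inr, basWt, xV, co_gen, pair_idx, reduceCtorEq, if_false]
    rw [if_neg]
    rintro ⟨h1, h2⟩
    have := a.2.2
    have := congrArg v h1
    omega
  · simp only [xi, bw, Sum.elim_inr, basWt, uF, co_gen, reduceCtorEq, if_false]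
    rw [if_neg]
    omega

open Classical in
lemma xiV_bw (b : Bas Q v) (q : Nb Q w v D) :
    xi (.inr (.inl b) : Nb Q w v D) (bw q) = if q = .inr (.inl b) then 1 else 0 := by
  rcases q with a | a | a
  · simp only [xi, bw, Sum.elim_inl, xV, co_gen, pair_idx, reduceCtorEq, if_false]
    rw [if_neg]
    rintro ⟨h1, h2⟩
    have := b.2.2
    have := congrArg v h1
    omega
  · simp only [xi, bw, Sum.elim_inr, basWt, xV, co_gen, pair_idx, Sum.inr.injEq, Sum.inl.injEq,
      bas_ext]
  · simp only [xi, bw, Sum.elim_inr, basWt, uF, co_gen, Sum.inr.injEq, reduceCtorEq, if_false]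
    rw [if_neg]
    omega

lemma xi_free (p : Nb Q w v D) {g : G} (hg : free g) : xi p g = 0 := by
  rcases p with a | a | a
  · exact hg _ _
  · exact hg _ _
  · simp [xi]

/-- The specialization sending `bw p` to `x p`. -/
noncomputable def lam (x : Nb Q w v D → G) : G →+ G where
  toFun g := g + ∑ p : Nb Q w v D, xi p g • (x p - bw p)
  map_zero' := by simp
  map_add' g h := by
    simp only [map_add, add_smul, sum_add_distrib]
    abel

lemma lam_apply (x : Nb Q w v D → G) (g : G) :
    lam x g = g + ∑ p : Nb Q w v D, xi p g • (x p - bw p) := rfl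

theorem lamOK (σ : Bas Q v ≃ Bas Q v) (d : Bas Q v → ℕ) (lab : Bas Q D → Bas Q v × ℕ) :
    LamOK (w := w) σ d lab (lam (xs (w := w) σ d lab)) := by
  classical
  have hW : ∀ b : Bas Q w, xs σ d lab (.inr (.inr b) : Nb Q w v D) =
      bw (.inr (.inr b) : Nb Q w v D) := by
    intro b
    simp [xs, lv, bw, basWt]
  refine ⟨fun q => ?_, fun g hg => ?_, fun γ hT hγ => ?_⟩
  · rw [lam_apply, sum_eq_single q]
    · rcases q with a | a | a
      · simp [xiT_bw]
      · simp [xiV_bw]
      · simp [hW]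
    · intro p _ hp
      rcases p with a | a | a
      · simp [xiT_bw, hp.symm]
      · simp [xiV_bw, hp.symm]
      · simp [hW]
    · simp
  · simp [lam_apply, xi_free _ hg]
  · have hs : ∑ p : Nb Q w v D, xi p γ • (xs σ d lab p - bw p) =
        ∑ a : Bas Q v, xi (.inr (.inl a) : Nb Q w v D) γ •
          (bw (.inr (.inl (σ a)) : Nb Q w v D) + (d a : ℤ) • qq -
            bw (.inr (.inl a) : Nb Q w v D)) := by
      simp only [Fintype.sum_sum_type, hT, zero_smul, sum_const_zero, zero_add, hW, sub_self,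
        zsmul_zero, add_zero]
      rfl
    rw [lam_apply, hs] at hγ
    have hc : ∀ b : Bas Q v, xi (.inr (.inl b) : Nb Q w v D) γ = 0 := by
      intro b
      have h := congrArg (xi (.inr (.inl (σ b)) : Nb Q w v D)) hγ
      simp only [map_add, map_sum, map_zsmul, map_sub, xiV_bw, xi_qq, add_zero,
        Sum.inr.injEq, Sum.inl.injEq, EmbeddingLike.apply_eq_iff_eq, smul_eq_mul, mul_sub,
        mul_ite, mul_one, mul_zero, sum_sub_distrib, sum_ite_eq', mem_univ, if_true,
        map_zero] at h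
      linarith
    simpa [hc] using hγ

theorem exists_sort (D : Fin Q.n →₀ ℕ) (d : Bas Q v → ℕ) (hd : d ∈ comps Q v D) :
    ∃ σ e, IsSort D d σ e := by
  classical
  let f : ∀ i, Fin (v i) → ℕ ×ₗ ℕ := fun i a => toLex (d ⟨i, a⟩, (a : ℕ))
  have hf : ∀ i, Function.Injective (f i) := by
    intro i a b h
    have := congrArg (fun x => (ofLex x).2) h
    exact Fin.ext this
  let s : ∀ i, Equiv.Perm (Fin (v i)) := fun i => Tuple.sort (f i)
  have hs : ∀ i, StrictMono (f i ∘ s i) := fun i =>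
    (Tuple.monotone_sort (f i)).strictMono_of_injective ((hf i).comp (s i).injective)
  refine ⟨Equiv.sigmaCongrRight fun i => (s i).symm,
    fun i k => if h : k < v i then d ⟨i, s i ⟨k, h⟩⟩ else 0, fun a => rfl, ?_, ?_, ?_⟩
  · rintro ⟨i, a⟩
    show (if h : (((s i).symm a : Fin (v i)) : ℕ) < v i then
      d ⟨i, s i ⟨((s i).symm a : Fin (v i)), h⟩⟩ else 0) = d ⟨i, a⟩
    simp
  · rintro ⟨i, a⟩ ⟨j, b⟩ h
    dsimp only at h
    subst h
    have h1 := (hs i).lt_iff_lt (a := (s i).symm b) (b := (s i).symm a)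
    simp only [Function.comp, Equiv.apply_symm_apply, f, Prod.Lex.toLex_lt_toLex] at h1
    exact h1.symm
  · simp only [comps, mem_filter] at hd
    simp only [types, mem_filter, Fintype.mem_piFinset, mem_piAntidiag, mem_range]
    refine ⟨fun i => ⟨?_, fun k hk => ?_⟩, fun i b hb a ha => ?_⟩
    · rw [← hd.2 i, ← Fin.sum_univ_eq_sum_range (fun k => if h : k < v i then
        d ⟨i, s i ⟨k, h⟩⟩ else 0) (v i), ← Equiv.sum_comp (s i) fun a => d ⟨i, a⟩]
      simp
    · by_contra h
      exact hk (dif_neg h)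
    · rw [dif_pos hb, dif_pos (ha.trans hb)]
      have h1 := hs i (a := ⟨a, ha.trans hb⟩) (b := ⟨b, hb⟩) ha
      simp only [Function.comp, f, Prod.Lex.toLex_lt_toLex] at h1
      omega

theorem sort : SortStmt := fun _ _ _ D d hd =>
  ⟨exists_sort D d hd, fun σ lab => ⟨_, lamOK σ d lab⟩⟩

end Pool.Agent.MP_8be872_ag.H55
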